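import Mathlib
import Pool.Agent.H476R2.Pal.Sieve2

/-!
Palindromic almost-primes: at least `c * 10^L / L` palindromes with exactly `2L+1` decimal digits have
at most four prime factors, counted with multiplicity, all of them larger than `10^(L/14)`.
-/

set_option autoImplicit false

namespace Pool.Agent.Results.MP_540de1_nt.FourPrimeFactors

open Finset Filter

/-- There is `c > 0` such that, for all large `L`, at least `c * 10^L / L` of the natural numbers `n` with
`10^(2L) ≤ n < 10^(2L+1)` whose decimal digit sequence equals its own reverse have at most four prime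
factors counted with multiplicity, and each of these prime factors exceeds `10^(L/14)`. -/
theorem result : ∃ c : ℝ, 0 < c ∧ ∀ᶠ L : ℕ in atTop,
    c * 10 ^ L / L ≤ (((range (10 ^ (2 * L + 1))).filter (fun n => 10 ^ (2 * L) ≤ n ∧
      (Nat.digits 10 n).reverse = Nat.digits 10 n ∧ n.primeFactorsList.length ≤ 4 ∧
      ∀ p ∈ n.primeFactorsList, (10 : ℝ) ^ ((L : ℝ) / 14) < p)).card : ℝ) :=
  Pool.Agent.H476R2.Pal.final4

end Pool.Agent.Results.MP_540de1_nt.FourPrimeFactors
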