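import Mathlib
import Pool.Agent.H476R2.Pal.BV2

/-!
The `X` decimal palindromes with `2L+1` digits (`X = 9 * 10^L`) have level of distribution `X^(3/5)`, beyond
the barrier `X^(1/2)` of the large sieve.
-/

set_option autoImplicit false

namespace Pool.Agent.Results.MP_540de1_nt.LevelThreeFifths

open Finset Filter

/-- Level of distribution `X^(3/5)` for decimal palindromes. -/
theorem result (A : ℕ) : ∀ᶠ L : ℕ in atTop, ∀ h : ℕ → ℕ,
    ∑ q ∈ (Icc 1 ⌊(10 : ℝ) ^ ((3 / 5 : ℝ) * L)⌋₊).filter (fun q => q.Coprime 10),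
      |(((range (10 ^ (2 * L + 1))).filter (fun n => 10 ^ (2 * L) ≤ n ∧
          (Nat.digits 10 n).reverse = Nat.digits 10 n ∧ n ≡ h q [MOD q])).card : ℝ)
          - 9 * 10 ^ L / q| ≤ 10 ^ L / (L : ℝ) ^ A :=
  Pool.Agent.H476R2.Pal.BV2_all A

end Pool.Agent.Results.MP_540de1_nt.LevelThreeFifths
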